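import Pool.Agent.W16.CM.Stm
import Pool.Agent.W69.MH.Stm

set_option autoImplicit false

open Finset

namespace Pool.Agent.W460.CM.COP

open Pool.Agent.W16.CM

theorem cop (hPR : Pool.Agent.W69.MH.St_PR) (hBTS : St_BTS) : St_COP := by
  classical
  obtain ⟨K, c', hK, hc', hPR⟩ := hPR
  obtain ⟨z0, hz0⟩ := hPR 100
  obtain ⟨C, hC, hBT⟩ := hBTS K hK
  obtain ⟨X0, hX0⟩ : ∃ X0 : ℕ, ∀ X : ℕ, X0 ≤ X → X ^ 1600 ≤ 3 ^ X := by
    have h := tendsto_pow_const_div_const_pow_of_one_lt 1600 (r := (3 : ℝ)) (by norm_num)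
    have h2 := h.eventually (gt_mem_nhds (show (0 : ℝ) < 1 by norm_num))
    obtain ⟨X0, hX0⟩ := Filter.eventually_atTop.mp h2
    refine ⟨X0, fun X hX => ?_⟩
    have h3 := hX0 X hX
    rw [div_lt_one (by positivity)] at h3
    exact_mod_cast h3.le
  refine ⟨K, c' / 2, hK, by positivity, max (max z0 X0) (max 32 ⌈2 * C / c'⌉₊), ?_⟩
  intro T hT Q d w z hQc hQ hw hz hodd hd
  have hTz0 : z0 ≤ T := (le_max_left _ _).trans ((le_max_left _ _).trans hT)
  have hTX0 : X0 ≤ T := (le_max_right _ _).trans ((le_max_left _ _).trans hT)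
  have hT32 : 32 ≤ T := (le_max_left _ _).trans ((le_max_right _ _).trans hT)
  have hTC' : ⌈2 * C / c'⌉₊ ≤ T := (le_max_right _ _).trans ((le_max_right _ _).trans hT)
  have hTC : 2 * C / c' ≤ T := (Nat.le_ceil _).trans (by exact_mod_cast hTC')
  have hT1 : 1 ≤ T := by omega
  have hTpos : (0 : ℝ) < T := by exact_mod_cast hT1
  have hw1 : 1 ≤ w := by rw [hw]; exact Nat.one_le_pow _ _ hT1
  have hTX : T ≤ T ^ w := Nat.le_self_pow (by omega) T
  generalize hX : T ^ w = X at *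
  have hXz : X ≤ z := by rw [hz]; exact (Nat.lt_pow_self (by norm_num)).le
  have hz0z : z0 ≤ z := by omega
  have h32z : 32 ≤ z := by omega
  have hdX : d ≤ X ^ 100 := by
    rw [← hX, ← pow_mul, Nat.mul_comm w 100]
    exact hd
  have hpow : ∀ r : ℕ, r ≤ T ^ 100 → (d * r) ^ 8 ≤ z := by
    intro r hr
    calc (d * r) ^ 8 ≤ (X ^ 100 * X ^ 100) ^ 8 := by
          refine Nat.pow_le_pow_left (Nat.mul_le_mul hdX (hr.trans ?_)) 8
          exact Nat.pow_le_pow_left hTX 100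
      _ = X ^ 1600 := by rw [← pow_add, ← pow_mul]
      _ ≤ 3 ^ X := hX0 X (hTX0.trans hTX)
      _ = z := hz.symm
  have hd1 : 1 ≤ d := by
    obtain ⟨m, hm⟩ := hodd
    omega
  have hd8 : d ^ 8 ≤ z := by
    have := hpow 1 (Nat.one_le_pow _ _ hT1)
    rwa [Nat.mul_one] at this
  have hlog : (d : ℝ) ≤ (Real.log z) ^ 100 := by
    have h1 : (X : ℝ) ≤ Real.log z := by
      rw [hz]
      push_cast
      rw [Real.log_pow]
      have h3 : (1 : ℝ) ≤ Real.log 3 := by
        rw [Real.le_log_iff_exp_le (by norm_num)]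
        exact (Real.exp_one_lt_d9.trans (by norm_num)).le
      have : (0 : ℝ) ≤ X := Nat.cast_nonneg X
      nlinarith
    calc (d : ℝ) ≤ (X : ℝ) ^ 100 := by exact_mod_cast hdX
      _ ≤ (Real.log z) ^ 100 := pow_le_pow_left₀ (Nat.cast_nonneg X) h1 100
  have hall := hz0 z hz0z 0 d 1 hodd hlog (by simpa using hd8) (Nat.coprime_one_left _)
  rw [pow_zero, one_mul] at hall
  have hφ : (0 : ℝ) < d.totient := by exact_mod_cast Nat.totient_pos.mpr hd1
  -- the bad primes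
  have hsplit : ∑ p ∈ (Ioc z (z ^ K)).filter (fun p => p.Prime ∧ p ≡ 1 [MOD d]), (1 : ℝ) / p ≤
      ∑ p ∈ (Ioc z (z ^ K)).filter (fun p => p.Prime ∧ p ≡ 1 [MOD d] ∧
        ((p - 1) / d).Coprime (∏ r ∈ Q, r)), (1 : ℝ) / p +
      ∑ r ∈ Q, ∑ p ∈ (Ioc z (z ^ K)).filter (fun p => p.Prime ∧ p ≡ 1 [MOD d * r]),
        (1 : ℝ) / p := by
    simp only [Finset.sum_filter]
    rw [Finset.sum_comm, ← Finset.sum_add_distrib]
    refine Finset.sum_le_sum fun p hp1 => ?_
    have hnn : (0 : ℝ) ≤ 1 / p := by positivity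
    have hQnn : (0 : ℝ) ≤ ∑ r ∈ Q, if p.Prime ∧ p ≡ 1 [MOD d * r] then (1 : ℝ) / p else 0 :=
      Finset.sum_nonneg fun r _ => by split_ifs <;> simp
    by_cases hp : p.Prime ∧ p ≡ 1 [MOD d]
    · rw [if_pos hp]
      obtain ⟨hp2, hp3⟩ := hp
      by_cases hcop : ((p - 1) / d).Coprime (∏ r ∈ Q, r)
      · rw [if_pos ⟨hp2, hp3, hcop⟩]
        linarith
      · rw [if_neg (fun h => hcop h.2.2), zero_add]
        rw [Nat.coprime_prod_right_iff] at hcop
        push Not at hcop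
        obtain ⟨r, hr, hrc⟩ := hcop
        have hdvd : r ∣ (p - 1) / d := by
          by_contra hnd
          exact hrc (Nat.Coprime.symm ((Nat.Prime.coprime_iff_not_dvd (hQ r hr).1).mpr hnd))
        have hd2 : d ∣ p - 1 := (Nat.modEq_iff_dvd' hp2.one_lt.le).mp hp3.symm
        have hd3 : d * r ∣ p - 1 := by
          obtain ⟨m, hm⟩ := hdvd
          refine ⟨m, ?_⟩
          rw [Nat.mul_assoc, ← hm, Nat.mul_div_cancel' hd2]
        have hmod : p ≡ 1 [MOD d * r] := ((Nat.modEq_iff_dvd' hp2.one_lt.le).mpr hd3).symm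
        have h5 := Finset.single_le_sum
          (f := fun r => if p.Prime ∧ p ≡ 1 [MOD d * r] then (1 : ℝ) / p else 0)
          (fun r _ => by split_ifs <;> simp) hr
        simp only [if_pos (show p.Prime ∧ p ≡ 1 [MOD d * r] from ⟨hp2, hmod⟩)] at h5
        exact h5
    · rw [if_neg hp]
      have : (0 : ℝ) ≤ if p.Prime ∧ p ≡ 1 [MOD d] ∧ ((p - 1) / d).Coprime (∏ r ∈ Q, r)
          then (1 : ℝ) / p else 0 := by split_ifs <;> simp
      linarith
  have hbad : ∑ r ∈ Q, ∑ p ∈ (Ioc z (z ^ K)).filter (fun p => p.Prime ∧ p ≡ 1 [MOD d * r]),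
        (1 : ℝ) / p ≤ c' / 2 / (d.totient : ℝ) := by
    have hone : ∀ r ∈ Q, ∑ p ∈ (Ioc z (z ^ K)).filter (fun p => p.Prime ∧ p ≡ 1 [MOD d * r]),
        (1 : ℝ) / p ≤ C / (d.totient * (T : ℝ) ^ 99) := by
      intro r hr
      obtain ⟨hr1, hr2, hr3⟩ := hQ r hr
      refine (hBT z (d * r) h32z (Nat.mul_pos hd1 hr1.pos) (hpow r hr3)).trans ?_
      refine div_le_div_of_nonneg_left hC.le (by positivity) ?_
      have h6 := Nat.totient_super_multiplicative d r
      rw [Nat.totient_prime hr1] at h6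
      have h7 : T ^ 99 ≤ r - 1 := by omega
      have h8 : d.totient * T ^ 99 ≤ (d * r).totient := (Nat.mul_le_mul_left _ h7).trans h6
      exact_mod_cast h8
    refine (Finset.sum_le_card_nsmul _ _ _ hone).trans ?_
    rw [nsmul_eq_mul]
    have hQc' : (Q.card : ℝ) ≤ (T : ℝ) ^ 98 := by exact_mod_cast hQc
    calc (Q.card : ℝ) * (C / (d.totient * (T : ℝ) ^ 99))
        ≤ (T : ℝ) ^ 98 * (C / (d.totient * (T : ℝ) ^ 99)) :=
          mul_le_mul_of_nonneg_right hQc' (by positivity)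
      _ = C / T / d.totient := by
          field_simp
      _ ≤ c' / 2 / (d.totient : ℝ) := by
          refine div_le_div_of_nonneg_right ?_ hφ.le
          rw [div_le_iff₀ hc'] at hTC
          rw [div_le_iff₀ hTpos]
          linarith
  have hfin : c' / (d.totient : ℝ) = c' / 2 / (d.totient : ℝ) + c' / 2 / (d.totient : ℝ) := by
    field_simp
    ring
  rw [hfin] at hall
  linarith

end Pool.Agent.W460.CM.COP
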